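import Pool.Agent.Helper36.CV.StmtsR

/-! # MP_e5aeaf_mp, cv_mods: module N1 (number theory) -/

set_option autoImplicit false

namespace Pool.Agent.Helper68.CV.N1

open Pool.Agent.Helper36.CV

theorem s5lo : (2.2360679 : ℝ) < Real.sqrt 5 := by
  rw [Real.lt_sqrt (by norm_num)]
  norm_num

theorem s5hi : Real.sqrt 5 < (2.2360680 : ℝ) := by
  rw [Real.sqrt_lt' (by norm_num)]
  norm_num

theorem s5sq : Real.sqrt 5 * Real.sqrt 5 = 5 := Real.mul_self_sqrt (by norm_num)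

theorem inert (p : ℕ) [NeZero p]
    (hp : ∀ x y : ZMod p, x * x - x * y - y * y = 0 → x = 0 ∧ y = 0) (x y : ℤ)
    (h : (p : ℤ) ∣ x ^ 2 - x * y - y ^ 2) : (p : ℤ) ^ 2 ∣ x ^ 2 - x * y - y ^ 2 := by
  have h1 : ((x ^ 2 - x * y - y ^ 2 : ℤ) : ZMod p) = 0 := (ZMod.intCast_zmod_eq_zero_iff_dvd _ _).2 h
  obtain ⟨hx, hy⟩ := hp (x : ZMod p) (y : ZMod p) (by
    rw [← h1]
    push_cast
    ring)
  rw [ZMod.intCast_zmod_eq_zero_iff_dvd] at hx hy
  obtain ⟨a, rfl⟩ := hx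
  obtain ⟨b, rfl⟩ := hy
  exact ⟨a ^ 2 - a * b - b ^ 2, by ring⟩

theorem z3 : ∀ x y : ZMod 3, x * x - x * y - y * y = 0 → x = 0 ∧ y = 0 := by decide

theorem z7 : ∀ x y : ZMod 7, x * x - x * y - y * y = 0 → x = 0 ∧ y = 0 := by decide

theorem z13 : ∀ x y : ZMod 13, x * x - x * y - y * y = 0 → x = 0 ∧ y = 0 := by decide +kernel

theorem z17 : ∀ x y : ZMod 17, x * x - x * y - y * y = 0 → x = 0 ∧ y = 0 := by decide +kernel

theorem nvals (x y N : ℤ) (hN : N = x ^ 2 - x * y - y ^ 2) :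
    (N % 3 = 0 → N % 9 = 0) ∧ (N % 7 = 0 → N % 49 = 0) ∧ (N % 13 = 0 → N % 169 = 0) ∧
      (N % 17 = 0 → N % 289 = 0) := by
  have h3 : (3 : ℤ) ∣ N → (3 : ℤ) ^ 2 ∣ N := by
    rw [hN]
    exact inert 3 z3 x y
  have h7 : (7 : ℤ) ∣ N → (7 : ℤ) ^ 2 ∣ N := by
    rw [hN]
    exact inert 7 z7 x y
  have h13 : (13 : ℤ) ∣ N → (13 : ℤ) ^ 2 ∣ N := by
    rw [hN]
    exact inert 13 z13 x y
  have h17 : (17 : ℤ) ∣ N → (17 : ℤ) ^ 2 ∣ N := by
    rw [hN]
    exact inert 17 z17 x y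
  clear hN
  norm_num at h3 h7 h13 h17
  refine ⟨?_, ?_, ?_, ?_⟩
  · clear h7 h13 h17
    omega
  · clear h3 h13 h17
    omega
  · clear h3 h7 h17
    omega
  · clear h3 h7 h13
    omega

/-- the possible norms of elements which are odd -/
theorem qvals (x y N : ℤ) (hN : N = x ^ 2 - x * y - y ^ 2) (hodd : N % 2 = 1) (h1 : -20 ≤ N)
    (h2 : N ≤ 22) : N = 1 ∨ N = -1 ∨ N = 5 ∨ N = -5 ∨ N = 9 ∨ N = -9 ∨ N = 11 ∨ N = -11 ∨
      N = 19 ∨ N = -19 := by
  obtain ⟨h3, h7, h13, h17⟩ := nvals x y N hN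
  clear hN
  interval_cases N <;> omega

/-- the possible norms of elements which are `1` modulo `4` -/
theorem nuvals (x y N : ℤ) (hN : N = x ^ 2 - x * y - y ^ 2) (hodd : N % 4 = 1) (h1 : -21 ≤ N)
    (h2 : N ≤ 20) : N = 1 ∨ N = 5 ∨ N = 9 ∨ N = -11 ∨ N = -19 := by
  obtain ⟨h3, h7, h13, h17⟩ := nvals x y N hN
  clear hN
  interval_cases N <;> omega

theorem fincheck (a b : ℤ) (hb : -14 ≤ b) (hb' : b ≤ -1)
    (h1 : 1000000 * (1 + 4 * a) + 4 * b * 618034 ≤ 450000)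
    (h2 : 71000 ≤ 1000000 * (1 + 4 * a) + 4 * b * 618033) (N : ℤ)
    (hN : N = (1 + 4 * a) ^ 2 - (1 + 4 * a) * (4 * b) - (4 * b) ^ 2) :
    N ≠ 1 ∧ N ≠ 5 ∧ N ≠ 9 := by
  by_cases h : b = -10
  · subst h
    have ha : a = 6 := by omega
    subst ha
    norm_num at hN
    rw [hN]
    norm_num
  · exfalso
    interval_cases b <;> omega

/-- powers of `φ` as elements of the ring -/
noncomputable def pw : ℕ → ℤ × ℤ
  | 0 => (1, 0)
  | n + 1 => zm (1, 1) (pw n)

theorem gam_phi : gam + phi = Real.sqrt 5 := by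
  unfold gam phi
  ring

theorem one_gam : 1 + gam = phi := by
  unfold gam phi
  ring

theorem pw_zv (h : ∀ x y : ℤ × ℤ, zv (zm x y) = zv x * zv y) (n : ℕ) : zv (pw n) = phi ^ n := by
  induction n with
  | zero => simp [pw, zv]
  | succ n ih =>
    rw [pw, h, ih, pow_succ, mul_comm]
    congr 1
    unfold zv
    push_cast
    rw [← one_gam]
    ring

theorem pw_zn (h : ∀ x y : ℤ × ℤ, zn (zm x y) = zn x * zn y) (n : ℕ) :
    zn (pw n) = (-1) ^ n := by
  induction n with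
  | zero => simp [pw, zn]
  | succ n ih =>
    rw [pw, h, ih, pow_succ, mul_comm]
    congr 1

theorem phi3 : phi ^ 3 = Real.sqrt 5 + 2 := by
  unfold phi
  have h := s5sq
  linear_combination (Real.sqrt 5 + 3) / 8 * h

theorem phi_pos : 0 < phi := by
  unfold phi
  have := s5lo
  linarith

theorem phi_one : 1 < phi := by
  unfold phi
  have := s5lo
  linarith

theorem gam_mul_phi : gam * phi = 1 := by
  unfold gam phi
  linear_combination s5sq / 4

theorem nosmall (a b : ℤ) (G : ℝ) (hG : G = 1 + 4 * a + 4 * b * gam) (h1 : 71 / 1000 ≤ G)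
    (h2 : G ≤ 45 / 100) (N : ℤ)
    (hN : N = (1 + 4 * a) ^ 2 - (1 + 4 * a) * (4 * b) - (4 * b) ^ 2) :
    N ≠ 1 ∧ N ≠ 5 ∧ N ≠ 9 := by
  by_contra hcon
  have hNr : 1 ≤ N ∧ N ≤ 9 := by
    by_contra h
    apply hcon
    refine ⟨?_, ?_, ?_⟩ <;> rintro rfl <;> exact h ⟨by norm_num, by norm_num⟩
  have hN1 : (1 : ℝ) ≤ N := by exact_mod_cast hNr.1
  have hN9 : (N : ℝ) ≤ 9 := by exact_mod_cast hNr.2
  have hgp := gam_phi
  have hgm := gam_mul_phi
  have hg1 := one_gam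
  have hlo := s5lo
  have hhi := s5hi
  set G' : ℝ := 1 + 4 * a - 4 * b * phi with hG'
  have hprod : G * G' = N := by
    rw [hG, hG', hN]
    push_cast
    rw [← hg1] at hgm ⊢
    linear_combination (-16 * (b : ℝ) ^ 2) * hgm
  have hdiff : G - G' = 4 * b * Real.sqrt 5 := by
    rw [hG, hG', ← hgp]
    ring
  have hG'1 : 22 / 10 ≤ G' := by
    by_contra h
    push Not at h
    have h3 : G * G' < 45 / 100 * (22 / 10) := by
      rcases le_or_gt G' 0 with h0 | h0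
      · nlinarith
      · nlinarith
    linarith
  have hG'2 : G' ≤ 127 := by
    by_contra h
    push Not at h
    nlinarith
  have hb1 : b ≤ -1 := by
    by_contra h
    have h0 : 0 ≤ b := by omega
    have h0r : (0 : ℝ) ≤ b := by exact_mod_cast h0
    nlinarith
  have hb2 : -14 ≤ b := by
    by_contra h
    have h0 : b ≤ -15 := by omega
    have h0r : (b : ℝ) ≤ -15 := by exact_mod_cast h0
    nlinarith
  have hbr : (b : ℝ) ≤ 0 := by
    have : (b : ℝ) ≤ -1 := by exact_mod_cast hb1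
    linarith
  have hglo : (618033 : ℝ) / 1000000 ≤ gam := by
    unfold gam
    linarith
  have hghi : gam ≤ (618034 : ℝ) / 1000000 := by
    unfold gam
    linarith
  have e1 : 1000000 * (1 + 4 * a) + 4 * b * 618034 ≤ 450000 := by
    have : (1000000 * (1 + 4 * a) + 4 * b * 618034 : ℝ) ≤ 450000 := by nlinarith
    exact_mod_cast this
  have e2 : 71000 ≤ 1000000 * (1 + 4 * a) + 4 * b * 618033 := by
    have : (71000 : ℝ) ≤ 1000000 * (1 + 4 * a) + 4 * b * 618033 := by nlinarith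
    exact_mod_cast this
  exact hcon (fincheck a b hb2 hb1 e1 e2 N hN)

theorem notsq (b : ℤ) : b ^ 2 ≠ 37 ∧ b ^ 2 ≠ 15 ∧ b ^ 2 ≠ 43 ∧ b ^ 2 ≠ 93 ∧ b ^ 2 ≠ 55 := by
  by_cases h : b ^ 2 ≤ 93
  · have h10 : b ≤ 9 := by nlinarith
    have h11 : -9 ≤ b := by nlinarith
    interval_cases b <;> norm_num
  · refine ⟨?_, ?_, ?_, ?_, ?_⟩ <;> intro h11 <;> rw [h11] at h <;> norm_num at h

theorem caseB (hN0 : ST_N0) (ε : ℝ) (hε : 0 < ε)
    (hJ : ∃ j : ℕ, 3 / 5 ≤ ε * phi ^ (6 * j) ∧ ε * phi ^ (6 * j) ≤ 19 / 10) (y z : ℤ × ℤ)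
    (u t α : ℝ) (hu : u = 1 + 2 * zv y) (ht : t = ε * u) (hα : α = zv z) (h52 : 5 / 2 ≤ u)
    (ht2 : t ≤ 207 / 1000)
    (hQ : |(zn (1 + 2 * y.1, 2 * y.2) : ℝ) - 1| ≤ 1025 / 10 * t + 1 / 1000)
    (h1 : ε * |2 * zc z - (1 + 2 * zc y)| ≤ 1001 / 4000)
    (h2 : 183 / 100 * t ≤ 2 * u * (2 * α - u) - 1)
    (h3 : 2 * u * (2 * α - u) - 1 ≤ 216 / 100 * t) : False := by
  obtain ⟨n1, n2, -, -, -, -, n7, n8, n9⟩ := hN0
  obtain ⟨y1, y2⟩ := y
  obtain ⟨z1, z2⟩ := z
  simp only at hQ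
  set U : ℤ × ℤ := (1 + 2 * y1, 2 * y2) with hU
  set B : ℤ × ℤ := (2 * z1 - 1 - 2 * y1, 2 * z2 - 2 * y2) with hB
  set a : ℤ := y1 + (z1 - 1 - y1) * (1 + 2 * y1) + 2 * y2 * (z2 - y2) with ha
  set b : ℤ := (1 + 2 * y1) * (z2 - y2) + y2 * (2 * z1 - 1 - 2 * y1) - 2 * y2 * (z2 - y2) with hb
  set g : ℤ × ℤ := (1 + 4 * a, 4 * b) with hg
  have hUv : zv U = u := by
    rw [hu, hU]
    unfold zv
    push_cast
    ring
  have hUc : zc U = 1 + 2 * zc (y1, y2) := by
    rw [hU]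
    unfold zc
    push_cast
    ring
  have hBv : zv B = 2 * α - u := by
    rw [hα, hu, hB]
    unfold zv
    push_cast
    ring
  have hBc : zc B = 2 * zc (z1, z2) - (1 + 2 * zc (y1, y2)) := by
    rw [hB]
    unfold zc
    push_cast
    ring
  have hΓ : zm U B = (1 + 2 * a, 2 * b) := by
    rw [hU, hB, ha, hb]
    unfold zm
    ext
    · simp only
      ring
    · simp only
      ring
  obtain ⟨m1, m2, m3⟩ := n1 U B
  rw [hΓ] at m1 m2 m3
  have hgv : zv g = 2 * u * (2 * α - u) - 1 := by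
    rw [← hBv, ← hUv, mul_assoc, ← m1, hg]
    unfold zv
    push_cast
    ring
  have hgc : zc g = 2 * (zc U * zc B) - 1 := by
    rw [← m2, hg]
    unfold zc
    push_cast
    ring
  have hgn := n2 g
  have hUn := n2 U
  have hBn := n2 B
  set ν : ℤ := zn g with hν
  set Q : ℤ := zn U with hQd
  set q : ℤ := zn B with hq
  have hνe : ν = (1 + 4 * a) ^ 2 - (1 + 4 * a) * (4 * b) - (4 * b) ^ 2 := rfl
  have hQq : Q * q = (1 + 2 * a) ^ 2 - (1 + 2 * a) * (2 * b) - (2 * b) ^ 2 := m3.symm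
  have hQe : Q = (1 + 2 * y1) ^ 2 - (1 + 2 * y1) * (2 * y2) - (2 * y2) ^ 2 := rfl
  have hqe : q = (2 * z1 - 1 - 2 * y1) ^ 2 - (2 * z1 - 1 - 2 * y1) * (2 * z2 - 2 * y2) -
    (2 * z2 - 2 * y2) ^ 2 := rfl
  have hνodd : ν % 4 = 1 := by
    have e : ν = 1 + 4 * (2 * a + 4 * a ^ 2 - (1 + 4 * a) * b - 4 * b ^ 2) := by
      rw [hνe]
      ring
    omega
  have hQodd : Q % 2 = 1 := by
    have e : Q = 1 + 2 * (2 * y1 + 2 * y1 ^ 2 - (1 + 2 * y1) * y2 - 2 * y2 ^ 2) := by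
      rw [hQe]
      ring
    omega
  have hqodd : q % 2 = 1 := by
    have e : q = 1 + 2 * (2 * (z1 - 1 - y1) + 2 * (z1 - 1 - y1) ^ 2 -
        (1 + 2 * (z1 - 1 - y1)) * (z2 - y2) - 2 * (z2 - y2) ^ 2) := by
      rw [hqe]
      ring
    omega
  have hlin : 3 + 8 * a - 4 * b = 4 * (Q * q) - ν := by
    rw [hQq, hνe]
    ring
  have hquad : (2 + 8 * a - 4 * b) ^ 2 - 4 * ν = 80 * b ^ 2 := by
    rw [hνe]
    ring
  -- real inequalities
  have hupos : 0 < u := by linarith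
  have htpos : 0 < t := by
    rw [ht]
    positivity
  rw [← hgv] at h2 h3
  rw [← hBc] at h1
  set G : ℝ := zv g with hG
  have hGe : G = 1 + 4 * a + 4 * b * gam := by
    rw [hG, hg]
    unfold zv
    push_cast
    ring
  have hGpos : 0 < G := by linarith
  have hGle : G ≤ 448 / 1000 := by linarith
  have hQ1 : Q ≤ 22 := by
    have h4 := (abs_le.1 hQ).2
    have h5 : (Q : ℝ) < 23 := by linarith
    have h6 : Q < 23 := by exact_mod_cast h5
    omega
  have hQ2 : -20 ≤ Q := by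
    have h4 := (abs_le.1 hQ).1
    have h5 : (-21 : ℝ) < Q := by linarith
    have h6 : -21 < Q := by exact_mod_cast h5
    omega
  have key1 : |(ν : ℝ) + G| ≤ 10811 / 10000 * |(Q : ℝ)| := by
    have e1 : ((ν : ℝ) + G) * u = 2 * G * ((Q : ℝ) * zc B) := by
      rw [← hgn, hgc, ← hUn, hUv]
      ring
    have e2 : |(ν : ℝ) + G| * u = 2 * G * (|(Q : ℝ)| * |zc B|) := by
      have e0 : |((ν : ℝ) + G) * u| = |(ν : ℝ) + G| * u := by rw [abs_mul, abs_of_pos hupos]
      rw [← e0, e1, abs_mul, abs_mul, abs_mul, abs_of_pos hGpos, abs_two]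
    have e3 : 2 * G * (|(Q : ℝ)| * |zc B|) ≤ 2 * (216 / 100 * t) * (|(Q : ℝ)| * |zc B|) :=
      mul_le_mul_of_nonneg_right (by linarith) (by positivity)
    have e4 : 2 * (216 / 100 * t) * (|(Q : ℝ)| * |zc B|) =
        432 / 100 * |(Q : ℝ)| * u * (ε * |zc B|) := by
      rw [ht]
      ring
    have e5 : 432 / 100 * |(Q : ℝ)| * u * (ε * |zc B|) ≤
        432 / 100 * |(Q : ℝ)| * u * (1001 / 4000) :=
      mul_le_mul_of_nonneg_left h1 (by positivity)
    have e6 : |(ν : ℝ) + G| * u ≤ (10811 / 10000 * |(Q : ℝ)|) * u := by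
      rw [e2]
      refine e3.trans ?_
      rw [e4]
      refine e5.trans ?_
      have h7 : 0 ≤ |(Q : ℝ)| * u := by positivity
      linarith
    exact le_of_mul_le_mul_right e6 hupos
  have key2 : 2 * t * |(q : ℝ)| ≤ (1 + G) * (1001 / 4000) := by
    have e1 : 2 * t * (q : ℝ) = (1 + G) * (ε * zc B) := by
      have e0 : 1 + G = 2 * u * zv B := by rw [hgv, hBv]; ring
      rw [← hBn, e0, ht]
      ring
    have e2 : 2 * t * |(q : ℝ)| = (1 + G) * (ε * |zc B|) := by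
      have e3 : |2 * t * (q : ℝ)| = 2 * t * |(q : ℝ)| := by
        rw [abs_mul, abs_of_pos (by linarith : (0 : ℝ) < 2 * t)]
      rw [← e3, e1, abs_mul, abs_mul, abs_of_pos hε, abs_of_pos (by linarith : (0 : ℝ) < 1 + G)]
    rw [e2]
    exact mul_le_mul_of_nonneg_left h1 (by linarith)
  -- large norm: `g` is not small
  have hbig : 4 ≤ |(Q : ℝ) - 1| → ν ≠ 1 ∧ ν ≠ 5 ∧ ν ≠ 9 := fun h4 =>
    nosmall a b G hGe (by linarith) (by linarith) ν hνe
  have hνlo : -21 ≤ ν → ν ≤ 20 → ν = 1 ∨ ν = 5 ∨ ν = 9 ∨ ν = -11 ∨ ν = -19 := fun h4 h5 =>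
    nuvals (1 + 4 * a) (4 * b) ν hνe hνodd h4 h5
  have hνb : ∀ M : ℝ, |(Q : ℝ)| ≤ M → (ν : ℝ) ≤ 10811 / 10000 * M ∧
      -(10811 / 10000 * M) - 448 / 1000 ≤ (ν : ℝ) := by
    intro M hM
    have h4 := abs_le.1 key1
    constructor
    · linarith [h4.2]
    · linarith [h4.1]
  -- the unit case
  have hunit : |Q| = 1 → False := by
    intro hQ1
    have h4 : |(Q : ℝ)| ≤ 1 := by
      have : ((|Q| : ℤ) : ℝ) = 1 := by rw [hQ1]; norm_num
      rw [Int.cast_abs] at this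
      exact this.le
    obtain ⟨h5, h6⟩ := hνb 1 h4
    have h7 : ν ≤ 1 := by
      have : (ν : ℝ) < 2 := by linarith
      have : ν < 2 := by exact_mod_cast this
      omega
    have h8 : -1 ≤ ν := by
      have : (-2 : ℝ) < ν := by linarith
      have : -2 < ν := by exact_mod_cast this
      omega
    have h9 : ν = 1 := by omega
    obtain ⟨k, hk⟩ := n7 U hQ1 (by rw [hUv]; exact hupos)
    obtain ⟨l, hl⟩ := n7 g (by rw [← hν, h9]; rfl) hGpos
    obtain ⟨j, hj⟩ := n8 k (y1, y2) (by rw [← hk, hUv, hu])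
    obtain ⟨i, hi⟩ := n9 l (a, b) (by
      rw [← hl, ← hG, hGe]
      unfold zv
      push_cast
      ring)
    obtain ⟨J, hJ1, hJ2⟩ := hJ
    have hφ := phi_pos
    have hk' : u = phi ^ k := by rw [← hUv]; exact hk
    have hl' : G = phi ^ l := hl
    have e1 : phi ^ (6 * J) * G / u = (phi ^ 3) ^ (2 * (J : ℤ) + 2 * i - j) := by
      rw [hk', hl', hj, hi, ← zpow_natCast phi 3, ← zpow_mul, ← zpow_natCast phi (6 * J),
        ← zpow_add₀ hφ.ne', ← zpow_sub₀ hφ.ne']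
      congr 1
      push_cast
      ring
    have hP := phi3
    have hlo := s5lo
    have hc1 : 1098 / 1000 ≤ phi ^ (6 * J) * G / u := by
      rw [le_div_iff₀ hupos]
      have e2 : phi ^ (6 * J) * (183 / 100 * t) ≤ phi ^ (6 * J) * G :=
        mul_le_mul_of_nonneg_left h2 (by positivity)
      have e3 : phi ^ (6 * J) * (183 / 100 * t) = 183 / 100 * (ε * phi ^ (6 * J)) * u := by
        rw [ht]
        ring
      have e4 : 183 / 100 * (3 / 5) * u ≤ 183 / 100 * (ε * phi ^ (6 * J)) * u :=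
        mul_le_mul_of_nonneg_right (by linarith) hupos.le
      linarith
    have hc2 : phi ^ (6 * J) * G / u ≤ 4104 / 1000 := by
      rw [div_le_iff₀ hupos]
      have e2 : phi ^ (6 * J) * G ≤ phi ^ (6 * J) * (216 / 100 * t) :=
        mul_le_mul_of_nonneg_left h3 (by positivity)
      have e3 : phi ^ (6 * J) * (216 / 100 * t) = 216 / 100 * (ε * phi ^ (6 * J)) * u := by
        rw [ht]
        ring
      have e4 : 216 / 100 * (ε * phi ^ (6 * J)) * u ≤ 216 / 100 * (19 / 10) * u :=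
        mul_le_mul_of_nonneg_right (by linarith) hupos.le
      linarith
    rw [e1, hP] at hc1 hc2
    rcases le_or_gt (2 * (J : ℤ) + 2 * i - j) 0 with hm | hm
    · have := zpow_le_zpow_right₀ (by linarith : (1 : ℝ) ≤ Real.sqrt 5 + 2) hm
      rw [zpow_zero] at this
      linarith
    · have := zpow_le_zpow_right₀ (by linarith : (1 : ℝ) ≤ Real.sqrt 5 + 2)
        (show (1 : ℤ) ≤ 2 * (J : ℤ) + 2 * i - j by omega)
      rw [zpow_one] at this
      linarith
  -- the case of norms `5`, `9`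
  have hmid : ∀ M : ℝ, |(Q : ℝ)| ≤ M → M ≤ 9 → 4 ≤ |(Q : ℝ) - 1| → False := by
    intro M hM hM9 h4
    obtain ⟨h5, h6⟩ := hνb M hM
    have h7 : ν ≤ 20 := by
      have : (ν : ℝ) < 21 := by linarith
      have : ν < 21 := by exact_mod_cast this
      omega
    have h8 : -10 ≤ ν := by
      have : (-11 : ℝ) < ν := by linarith
      have : -11 < ν := by exact_mod_cast this
      omega
    obtain ⟨a1, a2, a3⟩ := hbig h4
    rcases hνlo (by omega) h7 with h | h | h | h | h <;> omega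
  -- the last case
  have hlast : ∀ w : ℤ, Q * q = w ∨ Q * q = -w → w = 11 ∨ w = 19 → ν = -11 ∨ ν = -19 →
      (w = 11 → ν ≠ -19) → False := by
    intro w hw hw' hν' hx
    have hT : 2 + 8 * a - 4 * b = 4 * (Q * q) - ν - 1 := by linarith
    rw [hT] at hquad
    have hsq := notsq b
    obtain ⟨s1, s2, s3, s4, s5⟩ := hsq
    generalize b ^ 2 = bb at *
    rcases hw' with rfl | rfl
    · have h12 : ν = -11 := by
        rcases hν' with h | h
        · exact h
        · exact absurd h (hx rfl)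
      rw [h12] at hquad
      rcases hw with h | h <;> rw [h] at hquad <;> norm_num at hquad <;> omega
    · rcases hν' with h12 | h12 <;> rw [h12] at hquad <;>
        rcases hw with h | h <;> rw [h] at hquad <;> norm_num at hquad <;> omega
  have hqq : 10 ≤ |(Q : ℝ) - 1| → q = 1 ∨ q = -1 := by
    intro h4
    have h5 : 975 / 10000 ≤ t := by linarith
    have h6 : |(q : ℝ)| < 2 := by
      by_contra h7
      push Not at h7
      nlinarith
    have h7 : |q| < 2 := by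
      have : ((|q| : ℤ) : ℝ) < 2 := by
        rw [Int.cast_abs]
        exact h6
      exact_mod_cast this
    rw [abs_lt] at h7
    omega
  have hfin : ∀ w : ℤ, (Q = w ∨ Q = -w) → (w = 11 ∨ w = 19) → 10 ≤ |(Q : ℝ) - 1| → False := by
    intro w hw hw' h4
    have hM : |(Q : ℝ)| ≤ (w : ℝ) := by
      have hw0 : (0 : ℝ) ≤ w := by rcases hw' with rfl | rfl <;> norm_num
      rcases hw with h | h
      · rw [h, abs_of_nonneg hw0]
      · rw [h]
        push_cast
        rw [abs_neg, abs_of_nonneg hw0]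
    obtain ⟨h5, h6⟩ := hνb w hM
    have hw19 : (w : ℝ) ≤ 19 := by rcases hw' with rfl | rfl <;> norm_num
    have h7 : ν ≤ 20 := by
      have : (ν : ℝ) < 21 := by linarith
      have : ν < 21 := by exact_mod_cast this
      omega
    have h8 : -21 ≤ ν := by
      have : (-22 : ℝ) < ν := by linarith
      have : -22 < ν := by exact_mod_cast this
      omega
    obtain ⟨a1, a2, a3⟩ := hbig (by linarith)
    have hν' : ν = -11 ∨ ν = -19 := by
      rcases hνlo h8 h7 with h | h | h | h | h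
      · exact absurd h a1
      · exact absurd h a2
      · exact absurd h a3
      · exact Or.inl h
      · exact Or.inr h
    refine hlast w ?_ hw' hν' ?_
    · rcases hqq h4 with h | h <;> rw [h] <;> rcases hw with h' | h' <;> rw [h'] <;> simp
    · intro hw11 hν19
      rw [hw11, hν19] at h6
      norm_num at h6
  rcases qvals (1 + 2 * y1) (2 * y2) Q hQe hQodd hQ2 hQ1 with h | h | h | h | h | h | h | h | h | h
  · exact hunit (by rw [h]; rfl)
  · exact hunit (by rw [h]; rfl)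
  · exact hmid 9 (by rw [h]; norm_num) le_rfl (by rw [h]; norm_num)
  · exact hmid 9 (by rw [h]; norm_num) le_rfl (by rw [h]; norm_num)
  · exact hmid 9 (by rw [h]; norm_num) le_rfl (by rw [h]; norm_num)
  · exact hmid 9 (by rw [h]; norm_num) le_rfl (by rw [h]; norm_num)
  · exact hfin 11 (Or.inl h) (Or.inl rfl) (by rw [h]; norm_num)
  · exact hfin 11 (Or.inr h) (Or.inl rfl) (by rw [h]; norm_num)
  · exact hfin 19 (Or.inl h) (Or.inr rfl) (by rw [h]; norm_num)
  · exact hfin 19 (Or.inr h) (Or.inr rfl) (by rw [h]; norm_num)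

theorem st_N1 (hN0 : ST_N0) : ST_N1 := by
  refine ⟨1 / 10 ^ 6, by norm_num, ?_⟩
  intro ε hε hε0 hA y z H
  obtain ⟨hJ, hA2⟩ := hA
  obtain ⟨h52, hα, ht, hQ, hA', hB'⟩ := H (1 + 2 * zv y) (ε * (1 + 2 * zv y)) (zv z) rfl rfl rfl
  rcases le_or_gt (20 * ε ^ (-(1 / 3) : ℝ)) (1 + 2 * zv y) with hu | hu
  · obtain ⟨c1, c2, c3⟩ := hA' hu
    exact caseB hN0 ε hε hJ y z _ _ _ rfl rfl rfl h52 ht hQ c1 c2 c3
  · obtain ⟨n1, n2, n3, n4, -, -, n7, n8, n9⟩ := hN0
    have hw3 : (ε ^ (1 / 3 : ℝ)) ^ 3 = ε := by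
      rw [← Real.rpow_natCast, ← Real.rpow_mul hε.le]
      norm_num
    have hwpos : 0 < ε ^ (1 / 3 : ℝ) := Real.rpow_pos_of_pos hε _
    have hwinv : ε ^ (-(1 / 3) : ℝ) = (ε ^ (1 / 3 : ℝ))⁻¹ := Real.rpow_neg hε.le _
    have hu' := hu
    rw [hwinv] at hu'
    generalize ε ^ (1 / 3 : ℝ) = w at hw3 hwpos hu'
    have hw : w ≤ 1 / 100 := by
      by_contra h
      push Not at h
      have : (1 / 100 : ℝ) ^ 3 < w ^ 3 := pow_lt_pow_left₀ h (by norm_num) (by norm_num)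
      rw [hw3] at this
      norm_num at this hε0
      linarith
    have huw : (1 + 2 * zv y) * w < 20 := by
      have h1 : 20 * w⁻¹ * w = 20 := by
        rw [mul_assoc, inv_mul_cancel₀ hwpos.ne', mul_one]
      calc (1 + 2 * zv y) * w < 20 * w⁻¹ * w := mul_lt_mul_of_pos_right hu' hwpos
        _ = 20 := h1
    have ht' : ε * (1 + 2 * zv y) ≤ 2 / 1000 := by
      have e : ε * (1 + 2 * zv y) = w ^ 2 * ((1 + 2 * zv y) * w) := by
        rw [← hw3]
        ring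
      rw [e]
      have h2 : w ^ 2 ≤ (1 / 100) ^ 2 := pow_le_pow_left₀ hwpos.le hw 2
      have h3 : 0 ≤ (1 + 2 * zv y) * w := mul_nonneg (by linarith) hwpos.le
      calc w ^ 2 * ((1 + 2 * zv y) * w) ≤ (1 / 100) ^ 2 * 20 :=
            mul_le_mul h2 huw.le h3 (by norm_num)
        _ = 2 / 1000 := by norm_num
    have hQ1 : zn (1 + 2 * y.1, 2 * y.2) = 1 := by
      have h4 := abs_le.1 hQ
      have h5 : (zn (1 + 2 * y.1, 2 * y.2) : ℝ) < 2 := by linarith [h4.2]
      have h6 : (0 : ℝ) < (zn (1 + 2 * y.1, 2 * y.2) : ℝ) := by linarith [h4.1]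
      have h7 : zn (1 + 2 * y.1, 2 * y.2) < 2 := by exact_mod_cast h5
      have h8 : 0 < zn (1 + 2 * y.1, 2 * y.2) := by exact_mod_cast h6
      omega
    have hUv : zv (1 + 2 * y.1, 2 * y.2) = 1 + 2 * zv y := by
      unfold zv
      push_cast
      ring
    have hupos : 0 < 1 + 2 * zv y := by linarith
    obtain ⟨k, hk⟩ := n7 (1 + 2 * y.1, 2 * y.2) (by rw [hQ1]; rfl) (by rw [hUv]; exact hupos)
    rw [hUv] at hk
    obtain ⟨j, hj⟩ := n8 k y hk.symm
    have hφ := phi_pos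
    have hφ1 := phi_one
    have hkpos : 0 < k := by
      by_contra h
      push Not at h
      have h1 := zpow_le_zpow_right₀ hφ1.le h
      rw [zpow_zero, ← hk] at h1
      linarith
    obtain ⟨n, hn⟩ := Int.eq_ofNat_of_zero_le hkpos.le
    have hkn : 1 + 2 * zv y = phi ^ n := by
      rw [hk, hn]
      exact zpow_natCast phi n
    have hUpw : ((1 + 2 * y.1, 2 * y.2) : ℤ × ℤ) = pw n := by
      apply n4
      rw [hUv, pw_zv (fun x y => (n1 x y).1), hkn]
    have hsign : (-1 : ℤ) ^ n = 1 := by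
      rw [← pw_zn (fun x y => (n1 x y).2.2), ← hUpw, hQ1]
    have heven : Even n := by
      by_contra h
      rw [Nat.not_even_iff_odd] at h
      rw [h.neg_one_pow] at hsign
      norm_num at hsign
    obtain ⟨i, hi⟩ : ∃ i : ℕ, n = 6 * i := by
      obtain ⟨c, hc⟩ := heven
      refine ⟨n / 6, ?_⟩
      have h1 : (n : ℤ) = 3 * j := by rw [← hj, hn]
      omega
    have hi1 : 1 ≤ i := by
      by_contra h
      have h1 : i = 0 := by omega
      rw [h1] at hi
      simp only [hi, mul_zero, Nat.cast_zero] at hn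
      omega
    have h15 : 15 ≤ 1 + 2 * zv y := by
      rw [hkn, hi]
      have h1 : phi ^ (6 * 1) ≤ phi ^ (6 * i) := pow_le_pow_right₀ hφ1.le (by omega)
      have h2 : phi ^ (6 * 1) = (phi ^ 3) ^ 2 := by ring
      rw [h2, phi3] at h1
      have := s5lo
      nlinarith
    obtain ⟨c1, c2⟩ := hB' h15 hu
    have h9 := hA2 i (1 + 2 * zv y) hi1 (by rw [hkn, hi]) hu.le z hα c1
    exact absurd c2 (not_le.2 h9)

end Pool.Agent.Helper68.CV.N1
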