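import Pool.Agent.Helper36.CV.StmtsT

/-!
# MP_e5aeaf_mp, module T12: the limits `Om` and `Ly`
-/

set_option autoImplicit false

namespace Pool.Agent.Helper36.CV

open Filter Topology

/-! ### constants -/

theorem t12_sq5 : Real.sqrt 5 ^ 2 = 5 := Real.sq_sqrt (by norm_num)

theorem t12_s5l : (22 : ℝ) / 10 < Real.sqrt 5 := by
  rw [Real.lt_sqrt (by norm_num)]; norm_num

theorem t12_s5u : Real.sqrt 5 < (224 : ℝ) / 100 := by
  rw [Real.sqrt_lt' (by norm_num)]; norm_num

theorem t12_gam_pos : 0 < gam := by
  unfold gam; linarith [t12_s5l]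

theorem t12_gam_lt : gam < 1 := by
  unfold gam; linarith [t12_s5u]

theorem t12_gam_sq : gam ^ 2 = 1 - gam := by
  unfold gam
  have := t12_sq5
  linear_combination this / 4

theorem t12_phi_eq : phi = 1 + gam := by unfold phi gam; ring

theorem t12_phi_gam : phi * gam = 1 := by
  rw [t12_phi_eq]
  linear_combination t12_gam_sq

theorem t12_phi_add : phi + gam = Real.sqrt 5 := by unfold phi gam; ring

/-- Binet -/
theorem t12_binet (n : ℕ) : (Nat.fib n : ℝ) * Real.sqrt 5 = phi ^ n - (-gam) ^ n := by
  induction n using Nat.twoStepInduction with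
  | zero => simp
  | one => simp [t12_phi_add]
  | more n ih1 ih2 =>
    rw [Nat.fib_add_two]
    push_cast
    have e1 : phi ^ (n + 2) = phi ^ (n + 1) + phi ^ n := by
      have : phi ^ 2 = phi + 1 := by
        rw [t12_phi_eq]; linear_combination t12_gam_sq
      rw [pow_add phi n 2, this]; ring
    have e2 : (-gam) ^ (n + 2) = (-gam) ^ (n + 1) + (-gam) ^ n := by
      rw [pow_add (-gam) n 2]
      have : (-gam) ^ 2 = 1 - gam := by rw [neg_sq]; exact t12_gam_sq
      rw [this]; ring
    rw [e1, e2]
    linarith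

/-- the linear recursion -/
theorem t12_rec {y d : ℕ → ℝ} {C : ℝ} (h0 : y 0 = 0)
    (hr : ∀ n, y (n + 2) = y (n + 1) + y n + d n) (hd : ∀ n, |d n| ≤ C) (n : ℕ) :
    |y n - (Nat.fib n : ℝ) * (y 1 + ∑' i : ℕ, gam ^ (i + 1) * d i)| ≤ 2 * C := by
  have hg0 := t12_gam_pos
  have hg1 := t12_gam_lt
  have hgs := t12_gam_sq
  have hC : 0 ≤ C := (abs_nonneg _).trans (hd 0)
  have hsumg : Summable (fun i : ℕ => gam ^ (i + 1) * C) := by
    have := (summable_geometric_of_lt_one hg0.le hg1).mul_left (gam * C)
    refine this.congr ?_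
    intro i; ring
  have hle : ∀ i : ℕ, ‖gam ^ (i + 1) * d i‖ ≤ gam ^ (i + 1) * C := by
    intro i
    rw [Real.norm_eq_abs, abs_mul, abs_of_pos (pow_pos hg0 _)]
    exact mul_le_mul_of_nonneg_left (hd i) (pow_pos hg0 _).le
  have hsum : Summable (fun i : ℕ => gam ^ (i + 1) * d i) := Summable.of_norm_bounded hsumg hle
  set L : ℝ := y 1 + ∑' i : ℕ, gam ^ (i + 1) * d i with hL
  -- the expanding mode
  have hA : ∀ n, gam ^ n * (y (n + 1) + gam * y n) =
      y 1 + ∑ i ∈ Finset.range n, gam ^ (i + 1) * d i := by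
    intro n
    induction n with
    | zero => simp [h0]
    | succ n ih =>
      rw [Finset.sum_range_succ, ← add_assoc, ← ih, hr n]
      rw [pow_succ]
      linear_combination (gam ^ n * y (n + 1)) * hgs
  have htail : ∀ n, |L - gam ^ n * (y (n + 1) + gam * y n)| ≤ gam ^ n * (phi * C) := by
    intro n
    rw [hA n, hL]
    have e1 := hsum.sum_add_tsum_nat_add n
    have e2 : y 1 + ∑' i : ℕ, gam ^ (i + 1) * d i -
        (y 1 + ∑ i ∈ Finset.range n, gam ^ (i + 1) * d i) =
        ∑' i : ℕ, gam ^ (i + n + 1) * d (i + n) := by linarith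
    rw [e2]
    have hs2 : Summable (fun i : ℕ => gam ^ (i + n + 1) * C) := by
      have := hsumg.comp_injective (add_left_injective n)
      exact this
    have e3 : ‖∑' i : ℕ, gam ^ (i + n + 1) * d (i + n)‖ ≤ ∑' i : ℕ, gam ^ (i + n + 1) * C :=
      tsum_of_norm_bounded hs2.hasSum (fun i => hle (i + n))
    rw [Real.norm_eq_abs] at e3
    refine e3.trans (le_of_eq ?_)
    have e4 : ∀ i : ℕ, gam ^ (i + n + 1) * C = gam ^ i * (gam ^ n * (gam * C)) := by
      intro i; ring
    simp_rw [e4]
    rw [tsum_mul_right, tsum_geometric_of_lt_one hg0.le hg1]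
    have e5 : (1 - gam)⁻¹ * gam = phi := by
      rw [← hgs]
      have h1 : phi * gam = 1 := t12_phi_gam
      field_simp
      linarith
    calc (1 - gam)⁻¹ * (gam ^ n * (gam * C)) = gam ^ n * (((1 - gam)⁻¹ * gam) * C) := by ring
      _ = gam ^ n * (phi * C) := by rw [e5]
  have hAn : |(y (n + 1) + gam * y n) - phi ^ n * L| ≤ phi * C := by
    have h1 := htail n
    have h2 : (y (n + 1) + gam * y n) - phi ^ n * L =
        -(phi ^ n * (L - gam ^ n * (y (n + 1) + gam * y n))) := by
      have h3 : phi ^ n * gam ^ n = 1 := by rw [← mul_pow, t12_phi_gam, one_pow]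
      linear_combination (-(y (n + 1) + gam * y n)) * h3
    have hp : 0 < phi ^ n := pow_pos (by rw [t12_phi_eq]; linarith) n
    rw [h2, abs_neg, abs_mul, abs_of_pos hp]
    have h3 : phi ^ n * gam ^ n = 1 := by rw [← mul_pow, t12_phi_gam, one_pow]
    calc phi ^ n * |L - gam ^ n * (y (n + 1) + gam * y n)|
        ≤ phi ^ n * (gam ^ n * (phi * C)) := mul_le_mul_of_nonneg_left h1 hp.le
      _ = phi * C := by rw [← mul_assoc, h3, one_mul]
  -- the contracting mode
  have hB : ∀ n, |(y (n + 1) - phi * y n) - (-gam) ^ n * L| ≤ phi ^ 2 * C := by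
    intro n
    induction n with
    | zero =>
      have h1 := htail 0
      simp only [pow_zero, one_mul, h0, mul_zero, add_zero, zero_add, sub_zero] at h1 ⊢
      rw [abs_sub_comm]
      refine h1.trans ?_
      apply mul_le_mul_of_nonneg_right _ hC
      have hp : 1 ≤ phi := by rw [t12_phi_eq]; linarith
      nlinarith
    | succ n ih =>
      have e1 : (y (n + 1 + 1) - phi * y (n + 1)) - (-gam) ^ (n + 1) * L =
          -gam * ((y (n + 1) - phi * y n) - (-gam) ^ n * L) + d n := by
        rw [hr n, pow_succ]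
        linear_combination (-y (n + 1)) * t12_phi_eq - y n * t12_phi_gam
      rw [e1]
      refine (abs_add_le _ _).trans ?_
      rw [abs_mul, abs_neg, abs_of_pos hg0]
      have h2 := mul_le_mul_of_nonneg_left ih hg0.le
      have h3 := hd n
      have h4 : gam * (phi ^ 2 * C) + C = phi ^ 2 * C := by
        have a1 := t12_phi_gam
        have a2 : phi ^ 2 = phi + 1 := by
          rw [t12_phi_eq]; linear_combination t12_gam_sq
        linear_combination (phi * C) * a1 - C * a2
      linarith
  have hBn := hB n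
  have e1 : (y n - (Nat.fib n : ℝ) * L) * Real.sqrt 5 =
      ((y (n + 1) + gam * y n) - phi ^ n * L) - ((y (n + 1) - phi * y n) - (-gam) ^ n * L) := by
    have b := t12_binet n
    have a := t12_phi_add
    linear_combination (-L) * b - y n * a
  have h5 : 0 < Real.sqrt 5 := by linarith [t12_s5l]
  have e2 : |y n - (Nat.fib n : ℝ) * L| * Real.sqrt 5 ≤ phi * C + phi ^ 2 * C := by
    have e0 : |y n - (Nat.fib n : ℝ) * L| * Real.sqrt 5 =
        |(y n - (Nat.fib n : ℝ) * L) * Real.sqrt 5| := by
      rw [abs_mul, abs_of_pos h5]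
    rw [e0, e1]
    refine (abs_sub _ _).trans ?_
    exact add_le_add hAn hBn
  have e3 : phi * C + phi ^ 2 * C ≤ 2 * C * Real.sqrt 5 := by
    have a2 : phi ^ 2 = phi + 1 := by
      rw [t12_phi_eq]; linear_combination t12_gam_sq
    rw [a2]
    have : phi = (Real.sqrt 5 + 1) / 2 := rfl
    rw [this]
    nlinarith [t12_s5l]
  exact le_of_mul_le_mul_right (e2.trans e3) h5

/-- Fibonacci numbers are unbounded -/
theorem t12_nonpos {x K : ℝ} {n0 : ℕ} (h : ∀ n, n0 ≤ n → (Nat.fib n : ℝ) * x ≤ K) : x ≤ 0 := by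
  by_contra hx
  push Not at hx
  obtain ⟨m, hm⟩ := exists_nat_gt (K / x)
  set n := max n0 (m + 5) with hn
  have h1 := h n (le_max_left _ _)
  have h2 : n ≤ Nat.fib n := Nat.le_fib_self (by omega)
  have h3 : (m : ℝ) ≤ Nat.fib n := by
    have : m ≤ Nat.fib n := by omega
    exact_mod_cast this
  rw [div_lt_iff₀ hx] at hm
  have := mul_le_mul_of_nonneg_right h3 hx.le
  linarith

theorem t12_X_cont (l : ℝ) (n : ℕ) : Continuous (X l n) := by
  have h : ∀ n, Continuous (X l n) ∧ Continuous (X l (n + 1)) ∧ Continuous (X l (n + 2)) := by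
    intro n
    induction n with
    | zero =>
      refine ⟨?_, ?_, ?_⟩
      · show Continuous (fun E : ℝ => X l 0 E)
        simp only [X]; exact continuous_const
      · show Continuous (fun E : ℝ => X l 1 E)
        simp only [X]; exact continuous_id.div_const 2
      · show Continuous (fun E : ℝ => X l 2 E)
        simp only [X]; exact (continuous_id.sub continuous_const).div_const 2
    | succ n ih =>
      refine ⟨ih.2.1, ih.2.2, ?_⟩
      show Continuous (fun E : ℝ => X l (n + 3) E)
      simp only [X]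
      exact ((continuous_const.mul ih.2.2).mul ih.2.1).sub ih.1
  exact (h n).1

theorem t12_tau_cont (l : ℝ) (n : ℕ) : Continuous (tau l n) := by
  show Continuous (fun E : ℝ => Real.arcosh (max 1 |X l n E|))
  rw [← continuousOn_univ]
  apply Real.continuousOn_arcosh.comp (continuous_const.max (t12_X_cont l n).abs).continuousOn
  intro E _
  exact Set.mem_Ici.2 (le_max_left (1 : ℝ) _)

theorem t12_tau_nonneg (l : ℝ) (n : ℕ) (E : ℝ) : 0 ≤ tau l n E :=
  Real.arcosh_nonneg (le_max_left _ _)

theorem t12_tau_zero {l E : ℝ} {n : ℕ} (h : |X l n E| ≤ 1) : tau l n E = 0 := by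
  unfold tau
  rw [max_eq_left h, Real.arcosh_zero]

theorem t12_tau_pos {l E : ℝ} {n : ℕ} (h : 1 < |X l n E|) : 0 < tau l n E := by
  unfold tau
  apply Real.arcosh_pos
  exact lt_max_of_lt_right h

theorem t12_X0 (l E : ℝ) : X l 0 E = 1 := by simp [X]

/-- integer sequences -/
theorem t12_back (n : ℕ) : ∀ u v : ℤ, ∃ a b : ℤ, pp a b n = u ∧ pp a b (n + 1) = v := by
  induction n with
  | zero =>
    intro u v
    exact ⟨v, u, rfl, rfl⟩
  | succ n ih =>
    intro u v
    obtain ⟨a, b, h1, h2⟩ := ih (v - u) u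
    refine ⟨a, b, h2, ?_⟩
    show pp a b (n + 1) + pp a b n = v
    rw [h1, h2]; ring

theorem t12_pp (a b : ℤ) (n : ℕ) :
    (pp a b n : ℝ) = (Nat.fib n : ℝ) * (a + b * gam) + b * (-gam) ^ n := by
  induction n using Nat.twoStepInduction with
  | zero => simp [pp]
  | one => simp [pp]
  | more n ih1 ih2 =>
    have e : (pp a b (n + 2) : ℝ) = pp a b (n + 1) + pp a b n := by
      have : pp a b (n + 2) = pp a b (n + 1) + pp a b n := rfl
      rw [this]; push_cast; ring
    rw [e, ih1, ih2, Nat.fib_add_two]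
    push_cast
    have e2 : (-gam) ^ (n + 2) = (-gam) ^ (n + 1) + (-gam) ^ n := by
      rw [pow_add (-gam) n 2]
      have : (-gam) ^ 2 = 1 - gam := by rw [neg_sq]; exact t12_gam_sq
      rw [this]; ring
    rw [e2]; ring

theorem st_T12 (h6 : ST_T6) (h8 : ST_T8) (h9 : ST_T9) (h10 : ST_T10) (h11 : ST_T11) :
    ST_T12 := by
  intro l hl0 hl1
  have hsq : 0 ≤ Real.sqrt |l| := Real.sqrt_nonneg _
  have hg0 := t12_gam_pos
  have hg1 := t12_gam_lt
  -- main estimates
  have hTh : ∀ (n : ℕ) (E : ℝ), |Th l n E - (Nat.fib n : ℝ) * Om l E| ≤ 3 * Real.sqrt |l| := by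
    intro n E
    have h := t12_rec (y := fun n => Th l n E) (d := fun n => D l n E)
      (C := 101 / 100 * Real.sqrt |l|) rfl (fun n => rfl)
      (fun n => ((h6 l hl0 hl1 n).2.2 E).2.1) n
    refine h.trans ?_
    linarith
  have htau : ∀ (n : ℕ) (E : ℝ), |tau l n E - (Nat.fib n : ℝ) * Ly l E| ≤ 3 * Real.sqrt |l| := by
    intro n E
    have h := t12_rec (y := fun n => tau l n E)
      (d := fun n => tau l (n + 2) E - tau l (n + 1) E - tau l n E)
      (C := Real.sqrt |l|) (t12_tau_zero (by rw [t12_X0]; simp))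
      (fun n => by ring) (fun n => (h11 l hl0 hl1 n E).1) n
    refine h.trans ?_
    linarith
  have hsumg : ∀ C : ℝ, Summable (fun i : ℕ => gam ^ (i + 1) * C) := by
    intro C
    have := (summable_geometric_of_lt_one hg0.le hg1).mul_left (gam * C)
    refine this.congr ?_
    intro i; ring
  have hLy0 : ∀ E : ℝ, 0 ≤ Ly l E := by
    intro E
    have : -Ly l E ≤ 0 := by
      apply t12_nonpos (n0 := 0) (K := 3 * Real.sqrt |l|)
      intro n _
      have a := (abs_le.1 (htau n E)).2
      have b := t12_tau_nonneg l n E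
      linarith
    linarith
  -- escape
  have hesc : ∀ E : ℝ, E ∉ Cs l → ∃ n, 1 ≤ n ∧ 1 < |X l n E| ∧ 1 < |X l (n + 1) E| := by
    intro E hE
    unfold Cs at hE
    simp only [Set.mem_ofPred_eq, not_forall, not_or, not_le] at hE
    obtain ⟨n, h1, h2⟩ := hE
    refine ⟨n, ?_, h1, h2⟩
    by_contra h
    have : n = 0 := by omega
    rw [this, t12_X0] at h1
    simp at h1
  refine ⟨?_, ?_, ?_, ?_, ?_, ?_, ?_, ?_, ?_, ?_⟩
  · -- continuity of Om
    show Continuous (fun E => Th l 1 E + ∑' i : ℕ, gam ^ (i + 1) * D l i E)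
    apply (h6 l hl0 hl1 1).1.add
    apply continuous_tsum (u := fun i => gam ^ (i + 1) * (101 / 100 * Real.sqrt |l|))
    · intro i
      exact continuous_const.mul (h6 l hl0 hl1 i).2.1
    · exact hsumg _
    · intro i E
      rw [Real.norm_eq_abs, abs_mul, abs_of_pos (pow_pos hg0 _)]
      exact mul_le_mul_of_nonneg_left ((h6 l hl0 hl1 i).2.2 E).2.1 (pow_pos hg0 _).le
  · show Continuous (fun E => tau l 1 E +
      ∑' i : ℕ, gam ^ (i + 1) * (tau l (i + 2) E - tau l (i + 1) E - tau l i E))
    apply (t12_tau_cont l 1).add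
    apply continuous_tsum (u := fun i => gam ^ (i + 1) * Real.sqrt |l|)
    · intro i
      exact continuous_const.mul (((t12_tau_cont l (i + 2)).sub (t12_tau_cont l (i + 1))).sub
        (t12_tau_cont l i))
    · exact hsumg _
    · intro i E
      rw [Real.norm_eq_abs, abs_mul, abs_of_pos (pow_pos hg0 _)]
      exact mul_le_mul_of_nonneg_left (h11 l hl0 hl1 i E).1 (pow_pos hg0 _).le
  · -- monotonicity
    intro E1 E2 hE
    have : Om l E2 - Om l E1 ≤ 0 := by
      apply t12_nonpos (n0 := 0) (K := 6 * Real.sqrt |l|)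
      intro n _
      have a := (abs_le.1 (hTh n E1)).2
      have b := (abs_le.1 (hTh n E2)).1
      have c := (h10 l hl0 hl1 n).1 hE
      linarith
    linarith
  · intro E
    refine ⟨?_, ?_, hLy0 E⟩
    · have : -Om l E ≤ 0 := by
        apply t12_nonpos (n0 := 0) (K := 3 * Real.sqrt |l|)
        intro n _
        have a := (abs_le.1 (hTh n E)).2
        have b := ((h10 l hl0 hl1 n).2 E).1
        linarith
      linarith
    · have : Om l E - Real.pi ≤ 0 := by
        apply t12_nonpos (n0 := 0) (K := 3 * Real.sqrt |l|)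
        intro n _
        have a := (abs_le.1 (hTh n E)).1
        have b := ((h10 l hl0 hl1 n).2 E).2
        linarith
      linarith
  · intro E hE
    have hz : ∀ n, Th l n E = 0 := fun n => (h9 l hl0 hl1 n E).1 hE
    have a1 : Om l E ≤ 0 := by
      apply t12_nonpos (n0 := 0) (K := 3 * Real.sqrt |l|)
      intro n _
      have a := (abs_le.1 (hTh n E)).1
      have b := hz n
      linarith
    have a2 : -Om l E ≤ 0 := by
      apply t12_nonpos (n0 := 0) (K := 3 * Real.sqrt |l|)
      intro n _
      have a := (abs_le.1 (hTh n E)).2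
      have b := hz n
      linarith
    linarith
  · intro E hE
    have hz : ∀ n, Th l n E = Real.pi * (Nat.fib n : ℝ) := fun n => (h9 l hl0 hl1 n E).2.1 hE
    have a1 : Om l E - Real.pi ≤ 0 := by
      apply t12_nonpos (n0 := 0) (K := 3 * Real.sqrt |l|)
      intro n _
      have a := (abs_le.1 (hTh n E)).1
      have b := hz n
      linarith
    have a2 : Real.pi - Om l E ≤ 0 := by
      apply t12_nonpos (n0 := 0) (K := 3 * Real.sqrt |l|)
      intro n _
      have a := (abs_le.1 (hTh n E)).2
      have b := hz n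
      linarith
    linarith
  · intro n E
    exact ⟨hTh n E, htau n E⟩
  · intro E
    constructor
    · intro h0
      by_contra hE
      obtain ⟨n, hn, hx1, hx2⟩ := hesc E hE
      have h3 := h8 l hl0 hl1 n E hn hx1.le hx2.le
      set c := min (tau l n E) (tau l (n + 1) E) with hc
      have hcpos : 0 < c := lt_min (t12_tau_pos hx1) (t12_tau_pos hx2)
      have h4 : ∀ k : ℕ, (Nat.fib k : ℝ) * c ≤ tau l (n + k) E := by
        intro k
        induction k using Nat.twoStepInduction with
        | zero => simpa using t12_tau_nonneg l n E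
        | one =>
          have a := min_le_right (tau l n E) (tau l (n + 1) E)
          rw [Nat.fib_one, Nat.cast_one, one_mul]
          exact a
        | more k ih1 ih2 =>
          have a := (h3 (n + k) (by omega)).2.2.1
          rw [Nat.fib_add_two]
          push_cast
          have e1 : n + (k + 2) = n + k + 2 := by ring
          have e2 : n + (k + 1) = n + k + 1 := by ring
          rw [e1]
          rw [e2] at ih2
          linarith
      have h5 : c ≤ 0 := by
        apply t12_nonpos (n0 := 0) (K := 3 * Real.sqrt |l|)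
        intro k _
        have a := (abs_le.1 (htau (n + k) E)).2
        rw [h0] at a
        have b := h4 k
        linarith
      linarith
    · intro hE
      have h1 : ∀ n, tau l n E ≤ Real.sqrt |l| := by
        intro n
        by_cases hx : |X l n E| ≤ 1
        · rw [t12_tau_zero hx]; exact hsq
        · have hn : n ≠ 0 := by
            intro h
            rw [h, t12_X0] at hx
            simp at hx
          obtain ⟨m, rfl⟩ : ∃ m, n = m + 1 := ⟨n - 1, by omega⟩
          have a := hE m
          have b := hE (m + 1)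
          have a' : |X l m E| ≤ 1 := a.resolve_right hx
          have b' : |X l (m + 2) E| ≤ 1 := b.resolve_left hx
          exact (h11 l hl0 hl1 m E).2 a' b'
      have h2 : Ly l E ≤ 0 := by
        apply t12_nonpos (n0 := 0) (K := 4 * Real.sqrt |l|)
        intro n _
        have a := (abs_le.1 (htau n E)).1
        have b := h1 n
        linarith
      linarith [hLy0 E]
  · intro E hE
    obtain ⟨n, hn, hx1, hx2⟩ := hesc E hE
    have h3 := h8 l hl0 hl1 n E hn hx1.le hx2.le
    have h4 : ∀ m, n ≤ m → ∃ k : ℤ, Th l m E = Real.pi * k := by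
      intro m hm
      have hX := (h3 m hm).1
      have hc := ((h6 l hl0 hl1 m).2.2 E).2.2
      have hcl : clamp (X l m E) ^ 2 = 1 := by
        unfold clamp
        rcases le_or_gt 0 (X l m E) with hs | hs
        · rw [abs_of_nonneg hs] at hX
          rw [min_eq_left hX, max_eq_right (by norm_num)]; norm_num
        · rw [abs_of_neg hs] at hX
          rw [min_eq_right (by linarith), max_eq_left (by linarith)]; norm_num
      have hsin : Real.sin (Th l m E) = 0 := by
        have a := Real.sin_sq_add_cos_sq (Th l m E)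
        rw [hc, hcl] at a
        have : Real.sin (Th l m E) ^ 2 = 0 := by linarith
        exact pow_eq_zero_iff (two_ne_zero) |>.1 this
      obtain ⟨k, hk⟩ := Real.sin_eq_zero_iff.1 hsin
      exact ⟨k, by rw [← hk]; ring⟩
    obtain ⟨u, hu⟩ := h4 n le_rfl
    obtain ⟨v, hv⟩ := h4 (n + 1) (by omega)
    obtain ⟨a, b, ha, hb⟩ := t12_back n u v
    refine ⟨a, b, n, ?_⟩
    have h5 : ∀ k, Th l (n + k) E = Real.pi * (pp a b (n + k) : ℝ) := by
      intro k
      induction k using Nat.twoStepInduction with
      | zero => simp only [add_zero]; rw [ha, hu]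
      | one => rw [hb, hv]
      | more k ih1 ih2 =>
        have hD := (h3 (n + k) (by omega)).2.1
        have e1 : Th l (n + (k + 2)) E = Th l (n + (k + 1)) E + Th l (n + k) E + D l (n + k) E :=
          rfl
        have e2 : pp a b (n + (k + 2)) = pp a b (n + (k + 1)) + pp a b (n + k) := rfl
        rw [e1, e2, hD, ih1, ih2]
        push_cast; ring
    intro m hm
    have := h5 (m - n)
    have e : n + (m - n) = m := by omega
    rwa [e] at this
  · intro E a b n0 h
    have hb : ∀ n, |(b : ℝ) * (-gam) ^ n| ≤ |(b : ℝ)| := by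
      intro n
      rw [abs_mul, abs_pow, abs_neg, abs_of_pos hg0]
      have := pow_le_one₀ hg0.le hg1.le (n := n)
      have hb0 := abs_nonneg (b : ℝ)
      nlinarith
    have key : ∀ n, n0 ≤ n → |(Nat.fib n : ℝ) * (Real.pi * (a + b * gam) - Om l E)| ≤
        3 * Real.sqrt |l| + Real.pi * |(b : ℝ)| := by
      intro n hn
      have e1 := h n hn
      rw [t12_pp] at e1
      have e2 := hTh n E
      have e3 : (Nat.fib n : ℝ) * (Real.pi * (a + b * gam) - Om l E) =
          (Th l n E - (Nat.fib n : ℝ) * Om l E) - Real.pi * ((b : ℝ) * (-gam) ^ n) := by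
        rw [e1]; ring
      rw [e3]
      refine (abs_sub _ _).trans ?_
      rw [abs_mul Real.pi, abs_of_pos Real.pi_pos]
      exact add_le_add e2 (mul_le_mul_of_nonneg_left (hb n) Real.pi_pos.le)
    have a1 : Real.pi * (a + b * gam) - Om l E ≤ 0 := by
      apply t12_nonpos (n0 := n0) (K := 3 * Real.sqrt |l| + Real.pi * |(b : ℝ)|)
      intro n hn
      exact (abs_le.1 (key n hn)).2
    have a2 : -(Real.pi * (a + b * gam) - Om l E) ≤ 0 := by
      apply t12_nonpos (n0 := n0) (K := 3 * Real.sqrt |l| + Real.pi * |(b : ℝ)|)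
      intro n hn
      have := (abs_le.1 (key n hn)).1
      linarith
    linarith

end Pool.Agent.Helper36.CV
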